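import Pool.Agent.H21.PrefMain

set_option autoImplicit false

namespace Pool.Agent.Results.MP_7de2ad_al.PrefixClosedUnique

/-- the evaluation map `π : A^* → G` of a map `f : A → G` -/
def eval {A : Type} {G : Type*} [Group G] (f : A → G) (w : List A) : G := (w.map f).prod

/-- the padded pair of two words (the shorter word is padded at the end by the symbol `none`) -/
def conv {A : Type} (u v : List A) : List (Option A × Option A) :=
  List.ofFn (fun i : Fin (max u.length v.length) => (u[(i : ℕ)]?, v[(i : ℕ)]?))

/-- the set of pairs `(u, v)` with `R u v` is accepted by a finite state automaton reading both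
words synchronously -/
def SyncRegular {A : Type} (R : List A → List A → Prop) : Prop :=
  Language.IsRegular ({p | ∃ u v, R u v ∧ p = conv u v} : Language (Option A × Option A))

/-- `(A, L)` is an automatic structure on `G` (with respect to the map `f : A → G`) -/
structure IsAutomaticStructure {A : Type} {G : Type*} [Group G] (f : A → G) (L : Language A) :
    Prop where
  finite_alphabet : Finite A
  generates : Submonoid.closure (Set.range f) = ⊤
  regular : L.IsRegular
  onto : ∀ g : G, ∃ w ∈ L, eval f w = g
  equality : SyncRegular (fun u v => u ∈ L ∧ v ∈ L ∧ eval f u = eval f v)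
  multiplication : ∀ x : A, SyncRegular (fun u v => u ∈ L ∧ v ∈ L ∧ eval f u * f x = eval f v)

/-- a group is automatic if it has an automatic structure over some finite generating set -/
def IsAutomatic (G : Type*) [Group G] : Prop :=
  ∃ (A : Type) (f : A → G) (L : Language A), IsAutomaticStructure f L

/-- Every automatic group has, over some finite generating set, an automatic structure which is
prefix-closed and has the uniqueness property. -/
theorem result (G : Type*) [Group G] (h : IsAutomatic G) :
    ∃ (B : Type) (f : B → G) (L : Language B), IsAutomaticStructure f L ∧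
      (∀ u v : List B, u ++ v ∈ L → u ∈ L) ∧ Set.BijOn (eval f) L Set.univ := by
  obtain ⟨A, f, L, hA⟩ := h
  have := hA.finite_alphabet
  have conv1 : ∀ {B : Type} (R : List B → List B → Prop),
      SyncRegular R ↔ (Pool.Agent.H21.Reg.Ext R).IsRegular := by
    intro B R
    rw [← Pool.Agent.H21.Tree.can_iff]
    constructor
    · rintro ⟨σ, hσ, M, hM⟩
      exact ⟨σ, inferInstance, M, fun p => by rw [hM]; rfl⟩
    · rintro ⟨σ, hσ, M, hM⟩
      exact ⟨σ, Fintype.ofFinite σ, M, Set.ext fun p => hM p⟩
  have hE : Pool.Agent.H21.Tree.IsAut f L :=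
    ⟨hA.regular, hA.onto, (conv1 _).1 hA.equality, fun b => (conv1 _).1 (hA.multiplication b)⟩
  obtain ⟨B, hB, g, L', ⟨k1, k2, k3, k4⟩, k5, k6⟩ := Pool.Agent.H21.Tree.main f L hE
  refine ⟨B, g, L', ⟨hB, ?_, k1, k2, (conv1 _).2 k3, fun b => (conv1 _).2 (k4 b)⟩, k5, ?_⟩
  · rw [Submonoid.eq_top_iff']
    intro x
    obtain ⟨w, -, rfl⟩ := k2 x
    apply Submonoid.list_prod_mem
    intro y hy
    obtain ⟨b, -, rfl⟩ := List.mem_map.1 hy
    exact Submonoid.subset_closure ⟨b, rfl⟩
  · refine ⟨fun _ _ => Set.mem_univ _, fun u hu v hv he => k6 u hu v hv he, fun x _ => ?_⟩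
    obtain ⟨w, hw, rfl⟩ := k2 x
    exact ⟨w, hw, rfl⟩

end Pool.Agent.Results.MP_7de2ad_al.PrefixClosedUnique
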